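import Pool.Agent.TH413.QS.Params

set_option autoImplicit false

/-!
Quasi-symmetric designs with the parameters `3-(23,7,5)` and `3-(22,7,4)` and the intersection
numbers `1` and `3`: the first ones are `4-(23,7,1)` designs, the second ones are residuals of
`4-(23,7,1)` designs.
-/

namespace Pool.Agent.U347.QS

open Finset Pool.Agent.TH413.QS

variable {P : Type*} [Fintype P] [DecidableEq P]

omit [Fintype P] in
/-- four points lie in at most one block if the intersection numbers are at most three -/
lemma deg_four_le (B : Finset (Finset P))
    (hint : ∀ b₁ ∈ B, ∀ b₂ ∈ B, b₁ ≠ b₂ → (b₁ ∩ b₂).card = 1 ∨ (b₁ ∩ b₂).card = 3)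
    (S : Finset P) (hS : S.card = 4) : deg B S ≤ 1 := by
  unfold deg
  rw [Finset.card_le_one]
  intro b hb b' hb'
  rw [mem_filter] at hb hb'
  by_contra hne
  have h1 : S ⊆ b ∩ b' := subset_inter hb.2 hb'.2
  have h2 := card_le_card h1
  rcases hint b hb.1 b' hb'.1 hne with h | h <;> omega

/-- the case of 23 points -/
theorem steiner23 (B : Finset (Finset P)) (hv : Fintype.card P = 23)
    (hB : ∀ b ∈ B, b.card = 7) (h3 : ∀ T : Finset P, T.card = 3 → deg B T = 5)
    (hint : ∀ b₁ ∈ B, ∀ b₂ ∈ B, b₁ ≠ b₂ → (b₁ ∩ b₂).card = 1 ∨ (b₁ ∩ b₂).card = 3) :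
    ∀ S : Finset P, S.card = 4 → deg B S = 1 := by
  obtain ⟨l2, r, -, -, d2, d1, d0⟩ := basic B 7 5 (by norm_num) (by omega) hB h3
  rw [hv] at d2 d1 d0
  have hl2 : l2 = 21 := by omega
  subst hl2
  have hr : r = 77 := by omega
  subst hr
  have hb : B.card = 253 := by omega
  have h := sum_deg B (univ : Finset P) 4
  have h' : ∑ b ∈ B, ((univ : Finset P) ∩ b).card.choose 4 = 8855 := by
    rw [Finset.sum_congr rfl (g := fun _ => 35), sum_const, hb, smul_eq_mul]
    intro b hb
    rw [univ_inter, hB b hb]
    rfl
  rw [h'] at h
  have hc : (powersetCard 4 (univ : Finset P)).card = 8855 := by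
    rw [card_powersetCard, card_univ, hv]
    rfl
  intro S hS
  have hle := deg_four_le B hint S hS
  by_contra hne
  have h0 : deg B S = 0 := by omega
  have hlt : ∑ T ∈ powersetCard 4 (univ : Finset P), deg B T
      < ∑ T ∈ powersetCard 4 (univ : Finset P), 1 := by
    apply Finset.sum_lt_sum
    · intro T hT
      exact deg_four_le B hint T (mem_powersetCard.1 hT).2
    · exact ⟨S, mem_powersetCard.2 ⟨subset_univ _, hS⟩, by rw [h0]; norm_num⟩
  rw [h, sum_const, hc] at hlt
  simp at hlt

/-- the hexad of three points -/
def hexad (B : Finset (Finset P)) (T : Finset P) : Finset P :=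
  univ.filter (fun p => deg B (insert p T) ≠ 1)

section case22

variable {B : Finset (Finset P)} (hv : Fintype.card P = 22)
    (hB : ∀ b ∈ B, b.card = 7) (h3 : ∀ T : Finset P, T.card = 3 → deg B T = 4)
    (hint : ∀ b₁ ∈ B, ∀ b₂ ∈ B, b₁ ≠ b₂ → (b₁ ∩ b₂).card = 1 ∨ (b₁ ∩ b₂).card = 3)

include h3 in
lemma subset_hexad {T : Finset P} (hT : T.card = 3) : T ⊆ hexad B T := by
  intro p hp
  unfold hexad
  rw [mem_filter, insert_eq_of_mem hp, h3 T hT]
  exact ⟨mem_univ _, by norm_num⟩

include hv hB h3 hint in
lemma hexad_card {T : Finset P} (hT : T.card = 3) : (hexad B T).card = 6 := by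
  have h1 := sum_deg_insert B T
  have h2 : ∑ b ∈ B.filter (fun b => T ⊆ b), (b \ T).card = 16 := by
    rw [Finset.sum_congr rfl (g := fun _ => 4), sum_const]
    · have : (B.filter (fun b => T ⊆ b)).card = 4 := h3 T hT
      rw [this]
      rfl
    · intro b hb
      rw [mem_filter] at hb
      rw [card_sdiff_of_subset hb.2, hB b hb.1, hT]
  rw [h2] at h1
  have h4 : ∑ p ∈ univ \ T, deg B (insert p T)
      = ((univ \ T).filter (fun p => deg B (insert p T) = 1)).card := by
    rw [card_filter]
    refine Finset.sum_congr rfl fun p hp => ?_
    have hp' : p ∉ T := by simpa using hp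
    have hle := deg_four_le B hint (insert p T) (by rw [card_insert_of_notMem hp', hT])
    split_ifs with h
    · exact h
    · omega
  rw [h4] at h1
  have h5 : (univ : Finset P).filter (fun p => deg B (insert p T) = 1)
      = (univ \ T).filter (fun p => deg B (insert p T) = 1) := by
    ext p
    simp only [mem_filter, mem_univ, true_and, mem_sdiff]
    constructor
    · intro h
      refine ⟨fun hp => ?_, h⟩
      rw [insert_eq_of_mem hp, h3 T hT] at h
      omega
    · exact fun h => h.2
  have h6 := Finset.card_filter_add_card_filter_not (s := (univ : Finset P))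
    (fun p => deg B (insert p T) = 1)
  rw [h5, h1, card_univ, hv] at h6
  unfold hexad
  change ((univ : Finset P).filter (fun p => ¬ deg B (insert p T) = 1)).card = 6
  omega

include hB h3 hint in
lemma odd_inter {T : Finset P} (hT : T.card = 3) {b : Finset P} (hb : b ∈ B) :
    Odd (b ∩ hexad B T).card := by
  -- the sum of `|b ∩ b'|` over the four blocks `b'` through `T`
  have h1 : ∑ b' ∈ B.filter (fun b' => T ⊆ b'), (b ∩ b').card = ∑ p ∈ b, deg B (insert p T) := by
    have e : ∀ b' : Finset P, (b ∩ b').card = ∑ p ∈ b, if p ∈ b' then 1 else 0 := by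
      intro b'
      rw [← card_filter, filter_mem_eq_inter]
    simp_rw [e, deg_eq_sum]
    rw [Finset.sum_comm]
    refine Finset.sum_congr rfl fun p _ => ?_
    rw [Finset.sum_filter]
    refine Finset.sum_congr rfl fun b' _ => ?_
    by_cases h : T ⊆ b'
    · simp only [h, if_true, insert_subset_iff, and_true]
    · simp only [h, if_false, insert_subset_iff, and_false]
  have h2 : Even (∑ b' ∈ B.filter (fun b' => T ⊆ b'), (b ∩ b').card) := by
    have hodd : ∀ b' ∈ B.filter (fun b' => T ⊆ b'), Odd (b ∩ b').card := by
      intro b' hb'
      rw [mem_filter] at hb'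
      by_cases hne : b = b'
      · rw [← hne, inter_self, hB b hb]; decide
      · rcases hint b hb b' hb'.1 hne with h | h <;> rw [h] <;> decide
    rw [Finset.even_sum_iff_even_card_odd]
    rw [Finset.filter_true_of_mem hodd]
    have : (B.filter (fun b' => T ⊆ b')).card = 4 := h3 T hT
    rw [this]; decide
  rw [h1] at h2
  rw [Finset.even_sum_iff_even_card_odd] at h2
  have h4 : b.filter (fun p => Odd (deg B (insert p T))) = b \ hexad B T := by
    ext p
    rw [mem_filter, mem_sdiff]
    refine and_congr_right fun hp => ?_
    unfold hexad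
    rw [mem_filter]
    simp only [mem_univ, true_and, ne_eq, not_not]
    by_cases hpT : p ∈ T
    · rw [insert_eq_of_mem hpT, h3 T hT]; decide
    · have hle := deg_four_le B hint (insert p T) (by rw [card_insert_of_notMem hpT, hT])
      generalize deg B (insert p T) = m at hle
      interval_cases m <;> simp
  rw [h4] at h2
  have h5 := card_sdiff_add_card_inter b (hexad B T)
  rw [hB b hb] at h5
  rw [Nat.odd_iff]
  rw [Nat.even_iff] at h2
  omega

include hv hB h3 hint in
lemma inter_le {T : Finset P} (hT : T.card = 3) {b : Finset P} (hb : b ∈ B) :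
    (b ∩ hexad B T).card ≤ 3 := by
  obtain ⟨l2, r, hl, -, d2, -, -⟩ := basic B 7 4 (by norm_num) (by omega) hB h3
  rw [hv] at d2
  have hl2 : l2 = 16 := by omega
  subst hl2
  have hc := hexad_card hv hB h3 hint hT
  have s2 := sum_deg B (hexad B T) 2
  have s3 := sum_deg B (hexad B T) 3
  rw [Finset.sum_congr rfl (g := fun _ => 16) (fun S hS => hl S (mem_powersetCard.1 hS).2),
    sum_const, card_powersetCard, hc] at s2
  rw [Finset.sum_congr rfl (g := fun _ => 4) (fun S hS => h3 S (mem_powersetCard.1 hS).2),
    sum_const, card_powersetCard, hc] at s3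
  have c2 : Nat.choose 6 2 = 15 := rfl
  have c3 : Nat.choose 6 3 = 20 := rfl
  rw [c2] at s2
  rw [c3] at s3
  have hval : ∀ b ∈ B, (hexad B T ∩ b).card = 1 ∨ (hexad B T ∩ b).card = 3 ∨
      (hexad B T ∩ b).card = 5 := by
    intro b hb
    have h1 := odd_inter hB h3 hint hT hb
    rw [inter_comm] at h1
    have h2 : (hexad B T ∩ b).card ≤ 6 := by rw [← hc]; exact card_le_card inter_subset_left
    obtain ⟨m, hm⟩ := h1
    omega
  by_contra hcon
  have h5 : (hexad B T ∩ b).card = 5 := by
    rw [inter_comm] at hcon
    rcases hval b hb with h | h | h <;> omega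
  have hlt : ∑ b ∈ B, (hexad B T ∩ b).card.choose 2 < ∑ b ∈ B, 3 * (hexad B T ∩ b).card.choose 3 := by
    apply Finset.sum_lt_sum
    · intro b hb
      rcases hval b hb with h | h | h <;> rw [h] <;> decide
    · exact ⟨b, hb, by rw [h5]; decide⟩
  rw [← Finset.mul_sum, ← s2, ← s3] at hlt
  simp at hlt

include hv hB h3 hint in
lemma hexad_eq {T T' : Finset P} (hT : T.card = 3) (hT' : T'.card = 3) (h : T' ⊆ hexad B T) :
    hexad B T' = hexad B T := by
  symm
  apply Finset.eq_of_subset_of_card_le
  · intro p hp
    by_cases hpT : p ∈ T'
    · exact subset_hexad h3 hT' hpT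
    · unfold hexad
      rw [mem_filter]
      refine ⟨mem_univ _, fun h1 => ?_⟩
      unfold deg at h1
      rw [Finset.card_eq_one] at h1
      obtain ⟨b, hb⟩ := h1
      have hb' : b ∈ B.filter (fun b => insert p T' ⊆ b) := by rw [hb]; exact mem_singleton_self _
      rw [mem_filter] at hb'
      have h2 := inter_le hv hB h3 hint hT hb'.1
      have h4 : insert p T' ⊆ b ∩ hexad B T := subset_inter hb'.2 (insert_subset hp h)
      have h5 := card_le_card h4
      rw [card_insert_of_notMem hpT, hT'] at h5
      omega
  · rw [hexad_card hv hB h3 hint hT, hexad_card hv hB h3 hint hT']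

/-- the blocks of the extended design, on the point set `Option P` -/
def ext (B : Finset (Finset P)) : Finset (Finset (Option P)) :=
  B.image (fun b => b.map Function.Embedding.some) ∪
    ((powersetCard 3 (univ : Finset P)).image (hexad B)).image
      (fun h => insert none (h.map Function.Embedding.some))

omit [Fintype P] [DecidableEq P] in
lemma none_notMem_map (b : Finset P) : (none : Option P) ∉ b.map Function.Embedding.some := by
  simp

lemma ext_filter (B : Finset (Finset P)) :
    (ext B).filter (fun c => none ∉ c) = B.image (fun b => b.map Function.Embedding.some) := by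
  ext c
  unfold ext
  simp only [mem_filter, mem_union, mem_image]
  constructor
  · rintro ⟨h | ⟨h, -, rfl⟩, h'⟩
    · exact h
    · exact absurd (mem_insert_self _ _) h'
  · rintro ⟨b, hb, rfl⟩
    exact ⟨Or.inl ⟨b, hb, rfl⟩, none_notMem_map b⟩

include hv hB h3 hint in
/-- the extension of a quasi-symmetric `3-(22,7,4)` design -/
theorem steiner22 : (∀ c ∈ ext B, c.card = 7) ∧
    ∀ S : Finset (Option P), S.card = 4 → ((ext B).filter (fun c => S ⊆ c)).card = 1 := by
  constructor
  · intro c hc
    unfold ext at hc
    simp only [mem_union, mem_image, mem_powersetCard] at hc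
    rcases hc with ⟨b, hb, rfl⟩ | ⟨h, ⟨T, ⟨-, hT⟩, rfl⟩, rfl⟩
    · rw [card_map, hB b hb]
    · rw [card_insert_of_notMem (none_notMem_map _), card_map, hexad_card hv hB h3 hint hT]
  · intro S hS
    rw [Finset.card_eq_one]
    by_cases hn : none ∈ S
    · -- three points and the new point
      obtain ⟨T, hTe⟩ : ∃ T : Finset P, S = insert none (T.map Function.Embedding.some) := by
        refine ⟨S.eraseNone, ?_⟩
        rw [Finset.map_some_eraseNone, insert_erase hn]
      have hT : T.card = 3 := by
        rw [hTe, card_insert_of_notMem (none_notMem_map _), card_map] at hS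
        omega
      refine ⟨insert none ((hexad B T).map Function.Embedding.some), ?_⟩
      ext c
      rw [mem_filter, mem_singleton]
      constructor
      · rintro ⟨hc, hSc⟩
        unfold ext at hc
        simp only [mem_union, mem_image, mem_powersetCard] at hc
        rcases hc with ⟨b, hb, rfl⟩ | ⟨h, ⟨T', ⟨-, hT'⟩, rfl⟩, rfl⟩
        · exact absurd (hSc hn) (none_notMem_map _)
        · have hsub : T ⊆ hexad B T' := by
            intro p hp
            have h1 : (some p : Option P) ∈ insert none ((hexad B T').map Function.Embedding.some) := by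
              apply hSc
              rw [hTe]
              exact mem_insert_of_mem (mem_map_of_mem _ hp)
            simpa using h1
          rw [hexad_eq hv hB h3 hint hT' hT hsub]
      · rintro rfl
        refine ⟨?_, ?_⟩
        · unfold ext
          simp only [mem_union, mem_image, mem_powersetCard]
          exact Or.inr ⟨_, ⟨T, ⟨subset_univ _, hT⟩, rfl⟩, rfl⟩
        · rw [hTe]
          exact insert_subset_insert _ (map_subset_map.2 (subset_hexad h3 hT))
    · -- four old points
      obtain ⟨F, rfl⟩ : ∃ F : Finset P, S = F.map Function.Embedding.some := by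
        refine ⟨S.eraseNone, ?_⟩
        rw [Finset.map_some_eraseNone, erase_eq_of_notMem hn]
      rw [card_map] at hS
      have hle := deg_four_le B hint F hS
      rcases Nat.eq_zero_or_pos (deg B F) with h0 | h0
      · -- the four points lie in a hexad
        obtain ⟨T, hTF, hT⟩ := Finset.exists_subset_card_eq (s := F) (n := 3) (by omega)
        obtain ⟨p, hp⟩ : (F \ T).Nonempty := by
          rw [← Finset.card_pos, card_sdiff_of_subset hTF]
          omega
        rw [mem_sdiff] at hp
        have hF : F = insert p T := by
          symm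
          apply Finset.eq_of_subset_of_card_le (insert_subset hp.1 hTF)
          rw [card_insert_of_notMem hp.2]
          omega
        have hFH : F ⊆ hexad B T := by
          rw [hF]
          refine insert_subset ?_ (subset_hexad h3 hT)
          unfold hexad
          rw [mem_filter, ← hF, h0]
          exact ⟨mem_univ _, by norm_num⟩
        refine ⟨insert none ((hexad B T).map Function.Embedding.some), ?_⟩
        ext c
        rw [mem_filter, mem_singleton]
        constructor
        · rintro ⟨hc, hSc⟩
          unfold ext at hc
          simp only [mem_union, mem_image, mem_powersetCard] at hc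
          rcases hc with ⟨b, hb, rfl⟩ | ⟨h, ⟨T', ⟨-, hT'⟩, rfl⟩, rfl⟩
          · exfalso
            rw [map_subset_map] at hSc
            have : b ∈ B.filter (fun b => F ⊆ b) := mem_filter.2 ⟨hb, hSc⟩
            unfold deg at h0
            rw [Finset.card_eq_zero] at h0
            rw [h0] at this
            exact absurd this (notMem_empty _)
          · have hsub : T ⊆ hexad B T' := by
              intro q hq
              have h1 : (some q : Option P) ∈
                  insert none ((hexad B T').map Function.Embedding.some) := by
                apply hSc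
                exact mem_map_of_mem _ (hTF hq)
              simpa using h1
            rw [hexad_eq hv hB h3 hint hT' hT hsub]
        · rintro rfl
          refine ⟨?_, ?_⟩
          · unfold ext
            simp only [mem_union, mem_image, mem_powersetCard]
            exact Or.inr ⟨_, ⟨T, ⟨subset_univ _, hT⟩, rfl⟩, rfl⟩
          · exact (map_subset_map.2 hFH).trans (subset_insert _ _)
      · -- the four points lie in a block
        have h1 : deg B F = 1 := by omega
        unfold deg at h1
        rw [Finset.card_eq_one] at h1
        obtain ⟨b, hb⟩ := h1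
        have hb' : b ∈ B.filter (fun b => F ⊆ b) := by rw [hb]; exact mem_singleton_self _
        rw [mem_filter] at hb'
        refine ⟨b.map Function.Embedding.some, ?_⟩
        ext c
        rw [mem_filter, mem_singleton]
        constructor
        · rintro ⟨hc, hSc⟩
          unfold ext at hc
          simp only [mem_union, mem_image, mem_powersetCard] at hc
          rcases hc with ⟨b2, hb2, rfl⟩ | ⟨h, ⟨T', ⟨-, hT'⟩, rfl⟩, rfl⟩
          · rw [map_subset_map] at hSc
            have : b2 ∈ B.filter (fun b => F ⊆ b) := mem_filter.2 ⟨hb2, hSc⟩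
            rw [hb, mem_singleton] at this
            rw [this]
          · exfalso
            have hsub : F ⊆ hexad B T' := by
              intro q hq
              have h1 : (some q : Option P) ∈
                  insert none ((hexad B T').map Function.Embedding.some) := by
                apply hSc
                exact mem_map_of_mem _ hq
              simpa using h1
            have h2 := inter_le hv hB h3 hint hT' hb'.1
            have h4 := card_le_card (subset_inter hb'.2 hsub)
            omega
        · rintro rfl
          refine ⟨?_, map_subset_map.2 hb'.2⟩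
          unfold ext
          simp only [mem_union, mem_image]
          exact Or.inl ⟨b, hb'.1, rfl⟩

end case22

end Pool.Agent.U347.QS
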